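import Mathlib

namespace Pool.Agent.Results.MP_c6df36_pr.Fails

open MeasureTheory Set Filter Real Asymptotics

/-- uniform distribution on the unit square -/
noncomputable def unif : Measure (ℝ × ℝ) := volume.restrict (Icc 0 1 ×ˢ Icc 0 1)

/-- law of `(X_1, …, X_n, Y_1, …, Y_n)`: `2n` independent uniform points -/
noncomputable def law (n : ℕ) : Measure ((Fin n → ℝ × ℝ) × (Fin n → ℝ × ℝ)) :=
  (Measure.pi fun _ => unif).prod (Measure.pi fun _ => unif)

/-- the matching cost `M_n(σ)` -/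
noncomputable def cost (α₁ α₂ C : ℝ) (n : ℕ) (X Y : Fin n → ℝ × ℝ) (σ : Equiv.Perm (Fin n)) : ℝ :=
  max (∑ i, exp ((1 / C * √(n / log n) * |(X i).1 - (Y (σ i)).1|) ^ α₁))
    (∑ i, exp ((1 / C * √(n / log n) * |(X i).2 - (Y (σ i)).2|) ^ α₂))

lemma growth {β K C : ℝ} (hβ : 1 < β) (hK : 0 < K) :
    ∃ n : ℕ, 2 ≤ n ∧ C * n * 16 ^ n < exp ((n / log n) ^ β / K) := by
  have h1 := (isLittleO_log_rpow_rpow_atTop β (s := β - 1) (by linarith)).bound
    (c := 1 / (18 * K)) (by positivity)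
  obtain ⟨n, hn1, hn2, hn3⟩ := ((tendsto_natCast_atTop_atTop.eventually h1).and
    ((eventually_ge_atTop 2).and (tendsto_natCast_atTop_atTop.eventually
      (eventually_ge_atTop C)))).exists
  refine ⟨n, hn2, ?_⟩
  have hn : (2:ℝ) ≤ n := by exact_mod_cast hn2
  have hl : 0 < log n := log_pos (by linarith)
  have hp : 0 < log n ^ β := rpow_pos_of_pos hl _
  rw [norm_of_nonneg hp.le, norm_of_nonneg (by positivity)] at hn1
  have h2 : 18 * (n:ℝ) ≤ (n / log n) ^ β / K := by
    rw [div_rpow (by linarith) hl.le, div_div, le_div_iff₀ (by positivity)]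
    have e : (n:ℝ) ^ β = n * n ^ (β - 1) := by
      rw [rpow_sub_one (by linarith)]; field_simp
    rw [e]
    have h3 : 18 * K * log n ^ β ≤ n ^ (β - 1) := by
      rw [one_div, inv_mul_eq_div, le_div_iff₀ (by positivity)] at hn1
      linarith
    nlinarith
  refine lt_of_lt_of_le ?_ (exp_le_exp.2 h2)
  have h4 : (n:ℝ) < exp n := by linarith [add_one_le_exp (n:ℝ)]
  have h5 : (16:ℝ) ^ n ≤ exp (16 * n) := by
    rw [mul_comm, exp_nat_mul]
    exact pow_le_pow_left₀ (by norm_num) (by linarith [add_one_le_exp (16:ℝ)]) n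
  have e : exp (18 * n) = exp n * exp n * exp (16 * n) := by
    rw [← exp_add, ← exp_add]; ring_nf
  rw [e]
  have h6 : C * n < exp n * exp n := by nlinarith
  exact mul_lt_mul h6 h5 (by positivity) (by positivity)

lemma unif_strip {a b : ℝ} (ha : 0 ≤ a) (hb : b ≤ 1) (hab : b - a = 1 / 4) :
    unif (Icc a b ×ˢ univ) = ENNReal.ofReal (1 / 4) := by
  unfold unif
  rw [Measure.restrict_apply (measurableSet_Icc.prod MeasurableSet.univ), prod_inter_prod,
    univ_inter, inter_eq_left.2 (Icc_subset_Icc ha hb), Measure.volume_eq_prod, Measure.prod_prod]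
  simp [hab]

theorem result (α₁ α₂ : ℝ) (h₁ : 0 < α₁) (h₂ : 0 < α₂) (h : 1 / α₁ + 1 / α₂ = 1 / 2) (C : ℝ)
    (hC : 0 < C) : ∃ n : ℕ, 2 ≤ n ∧ ENNReal.ofReal (C * n) <
      ∫⁻ ω, ENNReal.ofReal (⨅ σ : Equiv.Perm (Fin n), cost α₁ α₂ C n ω.1 ω.2 σ) ∂(law n) := by
  have hα : 2 < α₁ := by
    have : 1 / α₁ < 1 / 2 := by linarith [one_div_pos.2 h₂]
    exact (one_div_lt_one_div h₁ (by norm_num)).1 this
  obtain ⟨n, hn2, hn⟩ := growth (β := α₁ / 2) (K := (2 * C) ^ α₁) (C := C) (by linarith)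
    (rpow_pos_of_pos (by linarith) _)
  refine ⟨n, hn2, ?_⟩
  have hn' : (2:ℝ) ≤ n := by exact_mod_cast hn2
  have hl : 0 < log n := log_pos (by linarith)
  have : SigmaFinite unif := by unfold unif; infer_instance
  set E : Set ((Fin n → ℝ × ℝ) × (Fin n → ℝ × ℝ)) :=
    (univ.pi fun _ => Icc (0:ℝ) (1 / 4) ×ˢ univ) ×ˢ (univ.pi fun _ => Icc (3 / 4 : ℝ) 1 ×ˢ univ)
    with hE
  have hEm : MeasurableSet E :=
    (MeasurableSet.univ_pi fun _ => measurableSet_Icc.prod MeasurableSet.univ).prod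
      (MeasurableSet.univ_pi fun _ => measurableSet_Icc.prod MeasurableSet.univ)
  have hEv : law n E = ENNReal.ofReal (1 / 16 ^ n) := by
    unfold law
    rw [hE, Measure.prod_prod, Measure.pi_pi, Measure.pi_pi,
      unif_strip (by norm_num) (by norm_num) (by norm_num),
      unif_strip (by norm_num) (by norm_num) (by norm_num)]
    simp only [Finset.prod_const, Finset.card_univ, Fintype.card_fin]
    rw [← mul_pow, ← ENNReal.ofReal_mul (by norm_num), ← ENNReal.ofReal_pow (by norm_num)]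
    congr 1
    rw [show (1:ℝ) / 4 * (1 / 4) = 1 / 16 by norm_num, one_div_pow]
  set L := exp ((n / log n) ^ (α₁ / 2) / (2 * C) ^ α₁) with hL
  have hlow : ∀ ω ∈ E, L ≤ ⨅ σ : Equiv.Perm (Fin n), cost α₁ α₂ C n ω.1 ω.2 σ := by
    rintro ⟨X, Y⟩ ⟨hX, hY⟩
    refine le_ciInf fun σ => le_trans ?_ (le_max_left _ _)
    let i₀ : Fin n := ⟨0, by omega⟩
    refine le_trans ?_ (Finset.single_le_sum (f := fun i => exp ((1 / C * √(n / log n) *
      |(X i).1 - (Y (σ i)).1|) ^ α₁)) (fun i _ => (exp_pos _).le) (Finset.mem_univ i₀))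
    refine exp_le_exp.2 ?_
    have e : (n / log n) ^ (α₁ / 2) / (2 * C) ^ α₁ = (1 / C * √(n / log n) * (1 / 2)) ^ α₁ := by
      rw [sqrt_eq_rpow, show α₁ / 2 = 1 / 2 * α₁ by ring, rpow_mul (by positivity),
        ← div_rpow (by positivity) (by positivity)]
      congr 1
      field_simp
    rw [e]
    refine rpow_le_rpow (by positivity) (mul_le_mul_of_nonneg_left ?_ (by positivity)) h₁.le
    have a1 := (hX i₀ trivial).1.2
    have a2 := (hY (σ i₀) trivial).1.1
    rw [abs_sub_comm]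
    exact le_trans (by simp only at a1 a2; linarith) (le_abs_self _)
  calc ENNReal.ofReal (C * n) < ENNReal.ofReal (L * (1 / 16 ^ n)) := by
        rw [ENNReal.ofReal_lt_ofReal_iff (by positivity), mul_one_div, lt_div_iff₀ (by positivity)]
        exact hn
    _ = ∫⁻ ω, E.indicator (fun _ => ENNReal.ofReal L) ω ∂(law n) := by
        rw [lintegral_indicator_const hEm, hEv, ENNReal.ofReal_mul (by positivity)]
    _ ≤ _ := lintegral_mono fun ω => by
        by_cases hω : ω ∈ E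
        · rw [indicator_of_mem hω]; exact ENNReal.ofReal_le_ofReal (hlow ω hω)
        · rw [indicator_of_notMem hω]; exact zero_le

end Pool.Agent.Results.MP_c6df36_pr.Fails
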